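import Mathlib

namespace Pool.Agent.R260.SL

/-- A left module `M` over a ring `R` is slender if every `R`-linear map `R^ω → M` kills all but
finitely many of the unit vectors `e_n`. -/
def Slender (R M : Type*) [Ring R] [AddCommGroup M] [Module R M] : Prop :=
  ∀ f : (ℕ → R) →ₗ[R] M, {n : ℕ | f (Pi.single n (1 : R)) ≠ 0}.Finite

/-- The abelian group `A` is slender as a left module over its endomorphism ring
(`φ • a = φ a`). -/
def SlenderOverEnd (A : Type*) [AddCommGroup A] : Prop := Slender (AddMonoid.End A) A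

/-- `A` is a `p`-group. -/
def IsPGrp (p : ℕ) (A : Type*) [AddCommGroup A] : Prop := ∀ a : A, ∃ k : ℕ, p ^ k • a = 0

/-- `A` has no nonzero elements of infinite `p`-height. -/
def Separable (p : ℕ) (A : Type*) [AddCommGroup A] : Prop :=
  ∀ a : A, (∀ n : ℕ, ∃ b : A, p ^ n • b = a) → a = 0

/-- Every sequence of elements of bounded order that is Cauchy in the `p`-adic topology
converges. -/
def TorsionComplete (p : ℕ) (A : Type*) [AddCommGroup A] : Prop :=
  ∀ x : ℕ → A, (∃ e : ℕ, ∀ i, p ^ e • x i = 0) →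
    (∀ m : ℕ, ∃ N : ℕ, ∀ i j, N ≤ i → N ≤ j → ∃ b : A, p ^ m • b = x i - x j) →
    ∃ l : A, ∀ m : ℕ, ∃ N : ℕ, ∀ i, N ≤ i → ∃ b : A, p ^ m • b = x i - l

/-- The largest divisible subgroup of `A`. -/
def divPart (A : Type*) [AddCommGroup A] : AddSubgroup A :=
  sSup {H : AddSubgroup A | ∀ n : ℕ, n ≠ 0 → ∀ x ∈ H, ∃ y ∈ H, n • y = x}

/-! ### Pieces (each a Prop to be proved in its own file) -/

/-- SL-A: a nonzero element with a finite orbit makes `A` not slender. -/
def PieceA : Prop := ∀ (A : Type) [AddCommGroup A] (a : A), a ≠ 0 →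
  (Set.range (fun φ : AddMonoid.End A => φ a)).Finite → ¬ SlenderOverEnd A

/-- SL-B: free `ZMod (p^e)`-modules are injective: extension of homomorphisms to groups killed
by `p^e`. -/
def PieceB : Prop := ∀ (p : ℕ) (_ : p.Prime) (e : ℕ) (ι X Y : Type) [AddCommGroup X]
  [AddCommGroup Y] (_ : ∀ y : Y, p ^ e • y = 0) (i : X →+ Y) (_ : Function.Injective i)
  (g : X →+ (ι →₀ ZMod (p ^ e))), ∃ h : Y →+ (ι →₀ ZMod (p ^ e)), ∀ x, h (i x) = g x

/-- SL-C: if all series of socle elements with rapidly growing heights converge, then `A` is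
torsion-complete. -/
def PieceC : Prop := ∀ (p : ℕ) (_ : p.Prime) (A : Type) [AddCommGroup A] (N : ℕ → ℕ)
  (_ : StrictMono N)
  (_ : ∀ c : ℕ → A, (∀ k, p • c k = 0 ∧ ∃ b, p ^ N k • b = c k) →
    ∃ s : A, ∀ K, ∃ b, p ^ N K • b = s - ∑ k ∈ Finset.range K, c k),
  TorsionComplete p A

/-- SL-D: unbounded separable torsion-complete groups are not slender. -/
def PieceD : Prop := ∀ (p : ℕ) (_ : p.Prime) (A : Type) [AddCommGroup A] (_ : IsPGrp p A)
  (_ : Separable p A) (_ : TorsionComplete p A) (_ : ∀ n : ℕ, ∃ a : A, p ^ n • a ≠ 0),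
  ¬ SlenderOverEnd A

/-- SL-E: the non-reduced case. -/
def PieceE : Prop := ∀ (p : ℕ) (_ : p.Prime) (A : Type) [AddCommGroup A] (_ : IsPGrp p A)
  (_ : {a : A | a ∈ divPart A ∧ p • a = 0}.Infinite), SlenderOverEnd A

/-- SL-F: nested projections onto the complements of maximal `p^m`-bounded direct summands. -/
def PieceF : Prop := ∀ (p : ℕ) (_ : p.Prime) (A : Type) [AddCommGroup A] (_ : IsPGrp p A),
  ∃ ρ : ℕ → AddMonoid.End A,
    (∀ m m', m ≤ m' → ∀ x, ρ m (ρ m' x) = ρ m' x) ∧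
    (∀ m x, ρ m (p ^ m • x) = p ^ m • x) ∧
    (∀ m a, p • a = 0 → ρ m a = a → ∃ b, p ^ m • b = a)

/-- SL-G: bounded groups in which no `p^n A` is finite and nonzero are slender. -/
def PieceG : Prop := ∀ (p : ℕ) (_ : p.Prime) (A : Type) [AddCommGroup A] (M : ℕ)
  (_ : ∀ a : A, p ^ M • a = 0)
  (_ : ∀ n : ℕ, (∀ a : A, p ^ n • a = 0) ∨ (Set.range (fun a : A => p ^ n • a)).Infinite),
  SlenderOverEnd A

end Pool.Agent.R260.SL
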