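import Pool.Agent.R260.SL.Defs

/-!
# Piece SL-A: a nonzero element with a finite orbit makes `A` not slender
-/

namespace Pool.Agent.R260.SL

namespace PA

open Filter

/-- the partial sums -/
def gs {A : Type} [AddCommGroup A] (a : A) (u : ℕ → AddMonoid.End A) (k : ℕ) : A :=
  ∑ n ∈ Finset.range (k + 1), u n a

theorem ex {A : Type} [AddCommGroup A] (a : A)
    (hf : (Set.range (fun φ : AddMonoid.End A => φ a)).Finite) (u : ℕ → AddMonoid.End A) :
    ∃ m : A, ∀ᶠ k in (hyperfilter ℕ : Filter ℕ), gs a u k = m := by
  have h1 : ∀ᶠ k in (hyperfilter ℕ : Filter ℕ),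
      ∃ m ∈ Set.range (fun φ : AddMonoid.End A => φ a), gs a u k = m := by
    apply Eventually.of_forall
    intro k
    refine ⟨gs a u k, ⟨∑ n ∈ Finset.range (k + 1), u n, ?_⟩, rfl⟩
    exact Finset.sum_smul (f := u) (s := Finset.range (k + 1)) (x := a)
  rw [Ultrafilter.eventually_exists_mem_iff hf] at h1
  obtain ⟨m, _, hm⟩ := h1
  exact ⟨m, hm⟩

theorem uniq {A : Type} {s : ℕ → A} {m m' : A}
    (h : ∀ᶠ k in (hyperfilter ℕ : Filter ℕ), s k = m)
    (h' : ∀ᶠ k in (hyperfilter ℕ : Filter ℕ), s k = m') : m = m' := by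
  obtain ⟨k, hk1, hk2⟩ := (h.and h').exists
  rw [← hk1, hk2]

end PA

open Filter in
theorem pieceA : PieceA := by
  intro A _ a ha hfin hsl
  choose F hF using PA.ex a hfin
  let f : (ℕ → AddMonoid.End A) →ₗ[AddMonoid.End A] A :=
    { toFun := F
      map_add' := by
        intro u v
        apply PA.uniq (hF (u + v))
        filter_upwards [hF u, hF v] with k h1 h2
        rw [← h1, ← h2]
        unfold PA.gs
        rw [← Finset.sum_add_distrib]
        rfl
      map_smul' := by
        intro φ u
        apply PA.uniq (hF (φ • u))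
        filter_upwards [hF u] with k h1
        rw [← h1]
        simp [PA.gs, Finset.smul_sum] }
  have h1 := hsl f
  have h2 : {n : ℕ | f (Pi.single n (1 : AddMonoid.End A)) ≠ 0} = Set.univ := by
    ext n
    simp only [Set.mem_ofPred_eq, Set.mem_univ, iff_true]
    have h3 : f (Pi.single n (1 : AddMonoid.End A)) = a := by
      change F (Pi.single n (1 : AddMonoid.End A)) = a
      apply PA.uniq (hF _)
      have h4 : ∀ᶠ k in (hyperfilter ℕ : Filter ℕ), n ≤ k := by
        have : ∀ᶠ k in (Filter.cofinite : Filter ℕ), n ≤ k := by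
          rw [Nat.cofinite_eq_atTop]
          exact eventually_ge_atTop n
        exact this.filter_mono (Filter.hyperfilter_le_cofinite)
      filter_upwards [h4] with k hk
      unfold PA.gs
      rw [Finset.sum_eq_single n]
      · simp
      · intro b _ hb
        simp [Pi.single_eq_of_ne hb]
      · intro hn
        exact absurd (Finset.mem_range.2 (by omega)) hn
    rw [h3]
    exact ha
  rw [h2] at h1
  exact Set.infinite_univ h1

end Pool.Agent.R260.SL
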