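import Pool.Agent.R260.SL.Defs

/-!
# Piece SL-B: free `ZMod (p ^ e)`-modules are injective
-/

namespace Pool.Agent.R260.SL

namespace PB

/-- the double annihilator property in `ZMod n` -/
theorem dbl {n : ℕ} [NeZero n] (d v : ZMod n) (h : ∀ c : ZMod n, c * d = 0 → c * v = 0) :
    ∃ w : ZMod n, d * w = v := by
  have hn : n ≠ 0 := NeZero.ne n
  set G := Nat.gcd d.val n with hG
  have hGn : G ∣ n := Nat.gcd_dvd_right _ _
  have hGd : G ∣ d.val := Nat.gcd_dvd_left _ _
  have hG0 : 0 < G := Nat.pos_of_ne_zero fun h0 => hn (Nat.eq_zero_of_gcd_eq_zero_right h0)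
  obtain ⟨c, hc⟩ := hGn
  obtain ⟨d', hd'⟩ := hGd
  have h1 : ((c : ℕ) : ZMod n) * d = 0 := by
    have : ((c * d.val : ℕ) : ZMod n) = 0 := by
      rw [ZMod.natCast_eq_zero_iff, hd', hc]
      exact ⟨d', by ring⟩
    rw [Nat.cast_mul, ZMod.natCast_zmod_val] at this
    exact this
  have h2 := h _ h1
  have h3 : ((c * v.val : ℕ) : ZMod n) = 0 := by
    rw [Nat.cast_mul, ZMod.natCast_zmod_val]
    exact h2
  rw [ZMod.natCast_eq_zero_iff] at h3
  have hc0 : 0 < c := Nat.pos_of_ne_zero fun h0 => by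
    rw [h0, mul_zero] at hc
    exact hn hc
  have h4 : G ∣ v.val := by
    obtain ⟨k, hk⟩ := h3
    refine ⟨k, ?_⟩
    have : c * v.val = c * (G * k) := by
      rw [hk]
      nth_rewrite 1 [hc]
      ring
    exact Nat.eq_of_mul_eq_mul_left hc0 this
  obtain ⟨k, hk⟩ := h4
  have h5 := Nat.gcd_eq_gcd_ab d.val n
  rw [← hG] at h5
  refine ⟨((Nat.gcdA d.val n : ℤ) : ZMod n) * (k : ZMod n), ?_⟩
  have h6 : ((G : ℤ) : ZMod n) = d * ((Nat.gcdA d.val n : ℤ) : ZMod n) := by
    rw [h5]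
    push_cast
    rw [ZMod.natCast_zmod_val, ZMod.natCast_self, zero_mul, add_zero]
  have h7 : v = ((G : ℤ) : ZMod n) * (k : ZMod n) := by
    rw [← ZMod.natCast_zmod_val v, hk]
    push_cast
    ring
  rw [h7, h6]
  ring

theorem dblF {n : ℕ} [NeZero n] {ι : Type} (d : ZMod n) (v : ι →₀ ZMod n)
    (h : ∀ c : ZMod n, c * d = 0 → c • v = 0) : ∃ w : ι →₀ ZMod n, d • w = v := by
  classical
  have h1 : ∀ i, ∃ w : ZMod n, d * w = v i := by
    intro i
    apply dbl
    intro c hc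
    have := DFunLike.congr_fun (h c hc) i
    simpa using this
  let φ : ZMod n → ZMod n := fun r =>
    if r = 0 then 0 else if hr : ∃ w, d * w = r then hr.choose else 0
  have hφ0 : φ 0 = 0 := by simp [φ]
  have hφ : ∀ i, d * φ (v i) = v i := by
    intro i
    by_cases h0 : v i = 0
    · rw [h0, hφ0, mul_zero]
    · have : φ (v i) = (h1 i).choose := by
        simp only [φ, h0, if_false, h1 i, dif_pos]
      rw [this]
      exact (h1 i).choose_spec
  refine ⟨v.mapRange φ hφ0, ?_⟩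
  ext i
  rw [Finsupp.smul_apply, Finsupp.mapRange_apply, smul_eq_mul, hφ]

theorem baer {n : ℕ} [NeZero n] (ι : Type) : Module.Baer (ZMod n) (ι →₀ ZMod n) := by
  intro I g
  have : IsPrincipalIdealRing (ZMod n) :=
    IsPrincipalIdealRing.of_surjective (Int.castRingHom (ZMod n)) (ZMod.ringHom_surjective _)
  obtain ⟨d, hd⟩ := (IsPrincipalIdealRing.principal I).principal
  have hdI : d ∈ I := by
    rw [hd]
    exact Submodule.mem_span_singleton_self d
  obtain ⟨w, hw⟩ := dblF d (g ⟨d, hdI⟩) (by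
    intro c hc
    rw [← map_smul]
    have : c • (⟨d, hdI⟩ : I) = 0 := by
      apply Subtype.ext
      exact hc
    rw [this, map_zero])
  refine ⟨LinearMap.toSpanSingleton (ZMod n) _ w, fun x hx => ?_⟩
  have hx' : x ∈ Submodule.span (ZMod n) {d} := by rwa [hd] at hx
  obtain ⟨r, hr⟩ := Submodule.mem_span_singleton.1 hx'
  have h1 : (⟨x, hx⟩ : I) = r • (⟨d, hdI⟩ : I) := by
    apply Subtype.ext
    exact hr.symm
  rw [h1, map_smul, ← hw, LinearMap.toSpanSingleton_apply, ← hr, smul_smul, smul_eq_mul]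

end PB

theorem pieceB : PieceB := by
  intro p hp e ι X Y _ _ hY i hi g
  have hn : NeZero (p ^ e) := ⟨pow_ne_zero _ hp.ne_zero⟩
  have hX : ∀ x : X, p ^ e • x = 0 := by
    intro x
    apply hi
    rw [map_nsmul, hY, map_zero]
  let _ : Module (ZMod (p ^ e)) X := AddCommGroup.zmodModule hX
  let _ : Module (ZMod (p ^ e)) Y := AddCommGroup.zmodModule hY
  obtain ⟨h, hh⟩ := (PB.baer (n := p ^ e) ι).extension_property
    (i.toZModLinearMap (p ^ e)) hi (g.toZModLinearMap (p ^ e))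
  refine ⟨h.toAddMonoidHom, fun x => ?_⟩
  have := LinearMap.congr_fun hh x
  exact this

end Pool.Agent.R260.SL
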