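import Pool.Agent.R260.SL.Defs

/-!
# Piece SL-C: series of socle elements and torsion-completeness
-/

namespace Pool.Agent.R260.SL

namespace PC

variable {A : Type} [AddCommGroup A] {p : ℕ}

/-- divisibility by `p ^ m` -/
def Dv (p : ℕ) (m : ℕ) (a : A) : Prop := ∃ b : A, p ^ m • b = a

theorem Dv.add {m : ℕ} {a b : A} (ha : Dv p m a) (hb : Dv p m b) : Dv p m (a + b) := by
  obtain ⟨x, rfl⟩ := ha
  obtain ⟨y, rfl⟩ := hb
  exact ⟨x + y, smul_add _ _ _⟩

theorem Dv.sub {m : ℕ} {a b : A} (ha : Dv p m a) (hb : Dv p m b) : Dv p m (a - b) := by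
  obtain ⟨x, rfl⟩ := ha
  obtain ⟨y, rfl⟩ := hb
  exact ⟨x - y, smul_sub _ _ _⟩

theorem Dv.mono {m n : ℕ} (h : n ≤ m) {a : A} (ha : Dv p m a) : Dv p n a := by
  obtain ⟨x, rfl⟩ := ha
  obtain ⟨k, rfl⟩ := Nat.exists_eq_add_of_le h
  exact ⟨p ^ k • x, by rw [smul_smul, pow_add]⟩

theorem Dv.smul {m : ℕ} {a : A} (k : ℕ) (ha : Dv p m a) : Dv p m (k • a) := by
  obtain ⟨x, rfl⟩ := ha
  exact ⟨k • x, smul_comm _ _ _⟩

theorem Dv.pw {m n : ℕ} (h : m ≤ n) (a : A) : Dv p m (p ^ n • a) :=
  Dv.mono h ⟨a, rfl⟩

end PC

open PC in
theorem pieceC : PieceC := by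
  intro p hp A _ N hN hser
  have hNk : ∀ k, k ≤ N k := hN.id_le
  have main : ∀ e : ℕ, ∀ x : ℕ → A, (∀ i, p ^ e • x i = 0) →
      (∀ m : ℕ, ∃ M : ℕ, ∀ i j, M ≤ i → M ≤ j → Dv p m (x i - x j)) →
      ∃ l : A, ∀ m : ℕ, ∃ M : ℕ, ∀ i, M ≤ i → Dv p m (x i - l) := by
    intro e
    induction e with
    | zero =>
      intro x hx _
      refine ⟨0, fun m => ⟨0, fun i _ => ?_⟩⟩
      have := hx i
      rw [pow_zero, one_smul] at this
      rw [this, sub_zero]
      exact ⟨0, smul_zero _⟩
    | succ e ih =>
      intro x hx hC
      choose M hM using hC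
      -- the subsequence
      set idx : ℕ → ℕ := fun k => ∑ j ∈ Finset.range (k + 1), (M (N j) + 1) with hidx
      have hstep : ∀ k, idx (k + 1) = idx k + (M (N (k + 1)) + 1) := by
        intro k
        simp only [hidx]
        rw [Finset.sum_range_succ]
      have hmono : Monotone idx := monotone_nat_of_le_succ fun k => by rw [hstep]; omega
      have hge : ∀ k, M (N k) ≤ idx k := by
        intro k
        simp only [hidx]
        rw [Finset.sum_range_succ]
        omega
      have hgek : ∀ k, k ≤ idx k := by
        intro k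
        induction k with
        | zero => exact Nat.zero_le _
        | succ k ihk => rw [hstep]; omega
      have hsub : ∀ k i j, idx k ≤ i → idx k ≤ j → Dv p (N k) (x i - x j) := by
        intro k i j hi hj
        exact hM (N k) i j ((hge k).trans hi) ((hge k).trans hj)
      -- the series
      set c : ℕ → A := fun k => p ^ e • (x (idx (k + 1)) - x (idx k)) with hc
      obtain ⟨s', hs'⟩ := hser c (fun k => by
        constructor
        · simp only [hc]
          rw [smul_smul, ← pow_succ', smul_sub, hx, hx, sub_zero]
        · exact (hsub k _ _ (hmono (Nat.le_succ k)) le_rfl).smul (p ^ e))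
      have htel : ∀ K, ∑ k ∈ Finset.range K, c k = p ^ e • x (idx K) - p ^ e • x (idx 0) := by
        intro K
        simp only [hc, smul_sub]
        exact Finset.sum_range_sub (fun k => p ^ e • x (idx k)) K
      choose w hw using hs'
      set s : A := s' + p ^ e • x (idx 0) with hs
      have hsw : ∀ K, s = p ^ e • x (idx K) + p ^ N K • w K := by
        intro K
        rw [hw K, htel K, hs]
        abel
      have hsw2 : ∀ K, e ≤ K → s = p ^ e • (x (idx K) + p ^ (N K - e) • w K) := by
        intro K hK
        rw [hsw K, smul_add, smul_smul, ← pow_add]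
        congr 3
        have := hNk K
        omega
      set t : A := x (idx e) + p ^ (N e - e) • w e with ht
      set x' : ℕ → A := fun K => x (idx (K + e)) + p ^ (N (K + e) - e) • w (K + e) - t with hx'
      obtain ⟨u, hu⟩ := ih x' (fun K => by
        simp only [hx']
        rw [smul_sub, ← hsw2 (K + e) (by omega), ht, ← hsw2 e le_rfl, sub_self])
        (fun m => ⟨max m (M m), fun K L hK hL => by
          have hK1 : m ≤ N (K + e) - e := by
            have := hNk (K + e); have := le_of_max_le_left hK; omega
          have hL1 : m ≤ N (L + e) - e := by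
            have := hNk (L + e); have := le_of_max_le_left hL; omega
          have hK2 : M m ≤ idx (K + e) := by
            have := hgek (K + e); have := le_of_max_le_right hK; omega
          have hL2 : M m ≤ idx (L + e) := by
            have := hgek (L + e); have := le_of_max_le_right hL; omega
          have h1 := ((hM m _ _ hK2 hL2).add (Dv.pw (p := p) hK1 (w (K + e)))).sub
            (Dv.pw (p := p) hL1 (w (L + e)))
          have e1 : x' K - x' L = x (idx (K + e)) - x (idx (L + e)) +
            p ^ (N (K + e) - e) • w (K + e) - p ^ (N (L + e) - e) • w (L + e) := by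
            simp only [hx']
            abel
          rw [e1]
          exact h1⟩)
      refine ⟨t + u, fun m => ?_⟩
      obtain ⟨L, hL⟩ := hu m
      refine ⟨M m, fun i hi => ?_⟩
      set K := max L (max m (M m)) with hK
      have hKL : L ≤ K := le_max_left _ _
      have hKm : m ≤ K := (le_max_left _ _).trans (le_max_right _ _)
      have hKM : M m ≤ K := (le_max_right _ _).trans (le_max_right _ _)
      have hK1 : m ≤ N (K + e) - e := by
        have := hNk (K + e); omega
      have hK2 : M m ≤ idx (K + e) := by
        have := hgek (K + e); omega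
      have h1 := ((hM m i _ hi hK2).add (hL K hKL)).sub (Dv.pw (p := p) hK1 (w (K + e)))
      have e1 : x i - (t + u) = x i - x (idx (K + e)) + (x' K - u) -
          p ^ (N (K + e) - e) • w (K + e) := by
        simp only [hx']
        abel
      rw [e1]
      exact h1
  intro x hx hC
  obtain ⟨e, he⟩ := hx
  exact main e x he hC

end Pool.Agent.R260.SL
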