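import Pool.Agent.R260.SL.Defs

/-!
# Piece SL-D: unbounded separable torsion-complete groups are not slender
-/

namespace Pool.Agent.R260.SL

namespace PD

variable {A : Type} [AddCommGroup A] {p : ℕ}

/-- divisibility by `p ^ m` -/
def Dv (p : ℕ) (m : ℕ) (a : A) : Prop := ∃ b : A, p ^ m • b = a

theorem Dv.zero (m : ℕ) : Dv p m (0 : A) := ⟨0, smul_zero _⟩

theorem Dv.add {m : ℕ} {a b : A} (ha : Dv p m a) (hb : Dv p m b) : Dv p m (a + b) := by
  obtain ⟨x, rfl⟩ := ha
  obtain ⟨y, rfl⟩ := hb
  exact ⟨x + y, smul_add _ _ _⟩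

theorem Dv.sub {m : ℕ} {a b : A} (ha : Dv p m a) (hb : Dv p m b) : Dv p m (a - b) := by
  obtain ⟨x, rfl⟩ := ha
  obtain ⟨y, rfl⟩ := hb
  exact ⟨x - y, smul_sub _ _ _⟩

theorem Dv.mono {m n : ℕ} (h : n ≤ m) {a : A} (ha : Dv p m a) : Dv p n a := by
  obtain ⟨x, rfl⟩ := ha
  obtain ⟨k, rfl⟩ := Nat.exists_eq_add_of_le h
  exact ⟨p ^ k • x, by rw [smul_smul, pow_add]⟩

theorem Dv.map {m : ℕ} {a : A} (φ : AddMonoid.End A) (ha : Dv p m a) : Dv p m (φ a) := by
  obtain ⟨x, rfl⟩ := ha
  exact ⟨φ x, (map_nsmul φ _ _).symm⟩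

theorem Dv.sum {m : ℕ} {ι : Type*} (s : Finset ι) (f : ι → A) (h : ∀ i ∈ s, Dv p m (f i)) :
    Dv p m (∑ i ∈ s, f i) := by
  classical
  induction s using Finset.induction_on with
  | empty => exact Dv.zero m
  | insert i s hi ih =>
    rw [Finset.sum_insert hi]
    exact (h i (Finset.mem_insert_self _ _)).add
      (ih fun j hj => h j (Finset.mem_insert_of_mem hj))

/-- convergence -/
def Lim (p : ℕ) (x : ℕ → A) (l : A) : Prop := ∀ m : ℕ, ∃ N : ℕ, ∀ i, N ≤ i → Dv p m (x i - l)

theorem Lim.uniq (hs : Separable p A) {x : ℕ → A} {l l' : A} (h : Lim p x l) (h' : Lim p x l') :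
    l = l' := by
  have : l' - l = 0 := by
    apply hs
    intro m
    obtain ⟨N, hN⟩ := h m
    obtain ⟨N', hN'⟩ := h' m
    have h1 := (hN (max N N') (le_max_left _ _)).sub (hN' (max N N') (le_max_right _ _))
    rw [sub_sub_sub_cancel_left] at h1
    exact h1
  exact (sub_eq_zero.1 this).symm

theorem Lim.add {x y : ℕ → A} {l l' : A} (h : Lim p x l) (h' : Lim p y l') :
    Lim p (fun i => x i + y i) (l + l') := by
  intro m
  obtain ⟨N, hN⟩ := h m
  obtain ⟨N', hN'⟩ := h' m
  refine ⟨max N N', fun i hi => ?_⟩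
  have h1 := (hN i (le_of_max_le_left hi)).add (hN' i (le_of_max_le_right hi))
  have e : x i + y i - (l + l') = x i - l + (y i - l') := by abel
  rw [e]
  exact h1

theorem Lim.map {x : ℕ → A} {l : A} (φ : AddMonoid.End A) (h : Lim p x l) :
    Lim p (fun i => φ (x i)) (φ l) := by
  intro m
  obtain ⟨N, hN⟩ := h m
  refine ⟨N, fun i hi => ?_⟩
  have := (hN i hi).map φ
  rwa [map_sub] at this

end PD

open PD in
theorem pieceD : PieceD := by
  intro p hp A _ hpg hsep htc hunb hsl
  have hex : ∀ n : ℕ, ∃ a : A, a ≠ 0 ∧ p • a = 0 ∧ Dv p n a := by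
    intro n
    obtain ⟨x, hx⟩ := hunb n
    have hk : ∃ k : ℕ, p ^ k • (p ^ n • x) = 0 := hpg _
    classical
    have h1 := Nat.find_spec hk
    have h2 : Nat.find hk ≠ 0 := by
      intro h0
      rw [h0, pow_zero, one_smul] at h1
      exact hx h1
    obtain ⟨k, hk'⟩ := Nat.exists_eq_succ_of_ne_zero h2
    have h3 : ¬ p ^ k • (p ^ n • x) = 0 := Nat.find_min hk (by omega)
    refine ⟨p ^ k • (p ^ n • x), h3, ?_, ⟨p ^ k • x, smul_comm _ _ _⟩⟩
    rw [hk', Nat.succ_eq_add_one, pow_succ', mul_smul] at h1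
    exact h1
  choose a ha0 hpa haD using hex
  have hlim : ∀ u : ℕ → AddMonoid.End A,
      ∃ l : A, Lim p (fun N => ∑ n ∈ Finset.range N, u n (a n)) l := by
    intro u
    refine htc (fun N => ∑ n ∈ Finset.range N, u n (a n)) ⟨1, fun i => ?_⟩ fun m => ⟨m, ?_⟩
    · rw [pow_one, Finset.smul_sum]
      apply Finset.sum_eq_zero
      intro n _
      rw [← map_nsmul, hpa, map_zero]
    · have key : ∀ i j, m ≤ i → i ≤ j → Dv p m
          (∑ n ∈ Finset.range j, u n (a n) - ∑ n ∈ Finset.range i, u n (a n)) := by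
        intro i j hi hij
        rw [← Finset.sum_Ico_eq_sub _ hij]
        apply Dv.sum
        intro n hn
        rw [Finset.mem_Ico] at hn
        exact ((haD n).mono (by omega)).map _
      intro i j hi hj
      rcases le_total i j with hij | hij
      · have h1 := (Dv.zero m).sub (key i j hi hij)
        rw [zero_sub, neg_sub] at h1
        exact h1
      · exact key j i hj hij
  choose F hF using hlim
  let f : (ℕ → AddMonoid.End A) →ₗ[AddMonoid.End A] A :=
    { toFun := F
      map_add' := by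
        intro u v
        apply Lim.uniq hsep (hF (u + v))
        have := (hF u).add (hF v)
        have e : (fun N => ∑ n ∈ Finset.range N, (u + v) n (a n)) =
            fun N => ∑ n ∈ Finset.range N, u n (a n) + ∑ n ∈ Finset.range N, v n (a n) := by
          funext N
          rw [← Finset.sum_add_distrib]
          rfl
        rw [e]
        exact this
      map_smul' := by
        intro φ u
        apply Lim.uniq hsep (hF (φ • u))
        have := (hF u).map φ
        have e : (fun N => ∑ n ∈ Finset.range N, (φ • u) n (a n)) =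
            fun N => φ (∑ n ∈ Finset.range N, u n (a n)) := by
          funext N
          rw [map_sum]
          rfl
        rw [e]
        exact this }
  have h1 := hsl f
  have h2 : {n : ℕ | f (Pi.single n (1 : AddMonoid.End A)) ≠ 0} = Set.univ := by
    ext n
    simp only [Set.mem_ofPred_eq, Set.mem_univ, iff_true]
    have h3 : f (Pi.single n (1 : AddMonoid.End A)) = a n := by
      change F (Pi.single n (1 : AddMonoid.End A)) = a n
      apply Lim.uniq hsep (hF _)
      intro m
      refine ⟨n + 1, fun i hi => ?_⟩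
      have h4 : ∑ k ∈ Finset.range i, (Pi.single n (1 : AddMonoid.End A) : ℕ → AddMonoid.End A) k
          (a k) = a n := by
        rw [Finset.sum_eq_single n]
        · simp
        · intro b _ hb
          simp [Pi.single_eq_of_ne hb]
        · intro hn
          exact absurd (Finset.mem_range.2 (by omega)) hn
      simp only
      rw [h4, sub_self]
      exact Dv.zero m
    rw [h3]
    exact ha0 n
  rw [h2] at h1
  exact Set.infinite_univ h1

end Pool.Agent.R260.SL
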