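import Pool.Agent.R260.SL.Defs

/-! SL-E (helper316): divisible part of infinite rank implies slender over the endomorphism
ring. -/

namespace Pool.Agent.R260.SL

namespace PE316

open Function

/-- extension of homomorphisms into divisible groups -/
theorem ext_div {Q : Type} [AddCommGroup Q] (hQ : ∀ n : ℕ, n ≠ 0 → ∀ x : Q, ∃ y, n • y = x)
    {X Y : Type} [AddCommGroup X] [AddCommGroup Y] (i : X →+ Y) (hi : Injective i) (g : X →+ Q) :
    ∃ h : Y →+ Q, ∀ x, h (i x) = g x := by
  have hd : ∀ {n : ℤ}, n ≠ 0 → Function.Surjective (fun a : Q => n • a) := by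
    intro n hn x
    obtain ⟨y, hy⟩ := hQ n.natAbs (Int.natAbs_ne_zero.2 hn) x
    rcases Int.natAbs_eq n with h | h
    · refine ⟨y, ?_⟩
      show n • y = x
      rw [h, natCast_zsmul, hy]
    · refine ⟨-y, ?_⟩
      show n • (-y) = x
      rw [h, neg_smul, smul_neg, neg_neg, natCast_zsmul, hy]
  let _ : DivisibleBy Q ℤ := divisibleByOfSMulRightSurj Q ℤ hd
  obtain ⟨h, hh⟩ := (Module.Baer.of_divisible Q).extension_property_addMonoidHom i hi g
  exact ⟨h, fun x => by rw [← hh]; rfl⟩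

/-- the homomorphism `ZMod p → A`, `1 ↦ a` -/
noncomputable def zl (p : ℕ) {A : Type} [AddCommGroup A] (a : A) (ha : p • a = 0) : ZMod p →+ A :=
  ZMod.lift p ⟨zmultiplesHom A a, by simp [ha]⟩

theorem zl_one (p : ℕ) {A : Type} [AddCommGroup A] (a : A) (ha : p • a = 0) :
    zl p a ha 1 = a := by
  have h := ZMod.lift_coe p ⟨zmultiplesHom A a, by simp [ha]⟩ 1
  simpa [zl] using h

theorem zl_int (p : ℕ) {A : Type} [AddCommGroup A] (a : A) (ha : p • a = 0) (m : ℤ) :
    zl p a ha (m : ZMod p) = m • a := by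
  have h := ZMod.lift_coe p ⟨zmultiplesHom A a, by simp [ha]⟩ m
  simpa [zl] using h

theorem zl_inj {p : ℕ} (hp : p.Prime) {A : Type} [AddCommGroup A] (a : A) (ha : p • a = 0)
    (h0 : a ≠ 0) : Injective (zl p a ha) := by
  unfold zl
  rw [ZMod.lift_injective]
  intro m hm
  haveI := Fact.mk hp
  have ho : addOrderOf a = p := addOrderOf_eq_prime ha h0
  have h1 : m • a = 0 := by simpa using hm
  have h2 := addOrderOf_dvd_iff_zsmul_eq_zero.2 h1
  rw [ho] at h2
  exact (ZMod.intCast_zmod_eq_zero_iff_dvd m p).2 h2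

/-- the group `ℚ/ℤ` -/
abbrev C : Type := AddCircle (1 : ℚ)

theorem C_div : ∀ n : ℕ, n ≠ 0 → ∀ x : C, ∃ y, n • y = x := by
  intro n hn x
  induction x using QuotientAddGroup.induction_on with
  | H q =>
    refine ⟨((q / n : ℚ) : C), ?_⟩
    show n • ((q / n : ℚ) : C) = ((q : ℚ) : C)
    rw [← AddCircle.coe_nsmul]
    congr 1
    rw [nsmul_eq_mul]
    field_simp

theorem C_soc {p : ℕ} (hp : p.Prime) : ∃ c : C, p • c = 0 ∧ c ≠ 0 ∧
    ∀ x : C, p • x = 0 → ∃ m : ℤ, x = m • c := by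
  have hp0 : (p : ℚ) ≠ 0 := by exact_mod_cast hp.ne_zero
  refine ⟨((1 / p : ℚ) : C), ?_, ?_, ?_⟩
  · rw [← AddCircle.coe_nsmul, AddCircle.coe_eq_zero_iff]
    refine ⟨1, ?_⟩
    rw [nsmul_eq_mul]
    field_simp
    simp
  · intro h
    rw [AddCircle.coe_eq_zero_iff] at h
    obtain ⟨n, hn⟩ := h
    rw [zsmul_eq_mul, mul_one, eq_div_iff hp0] at hn
    have h1 : n * (p : ℤ) = 1 := by exact_mod_cast hn
    have h2 : (p : ℤ) ∣ 1 := ⟨n, by rw [mul_comm]; exact h1.symm⟩
    have h3 : p ∣ 1 := by exact_mod_cast h2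
    exact hp.one_lt.ne' (Nat.dvd_one.1 h3)
  · intro x
    induction x using QuotientAddGroup.induction_on with
    | H q =>
      intro hx
      have hx' : p • ((q : ℚ) : C) = 0 := hx
      rw [← AddCircle.coe_nsmul, AddCircle.coe_eq_zero_iff] at hx'
      obtain ⟨n, hn⟩ := hx'
      refine ⟨n, ?_⟩
      show ((q : ℚ) : C) = _
      rw [← AddCircle.coe_zsmul]
      congr 1
      rw [zsmul_eq_mul, mul_one, nsmul_eq_mul] at hn
      rw [zsmul_eq_mul, hn]
      field_simp

theorem X_div : ∀ n : ℕ, n ≠ 0 → ∀ x : ℕ →₀ C, ∃ y, n • y = x := by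
  intro n hn x
  induction x using Finsupp.induction_linear with
  | zero => exact ⟨0, smul_zero _⟩
  | add f g hf hg =>
    obtain ⟨a, ha⟩ := hf
    obtain ⟨b, hb⟩ := hg
    exact ⟨a + b, by rw [smul_add, ha, hb]⟩
  | single k c =>
    obtain ⟨y, hy⟩ := C_div n hn c
    exact ⟨Finsupp.single k y, by rw [Finsupp.smul_single, hy]⟩

theorem divPart_div (A : Type) [AddCommGroup A] : ∀ n : ℕ, n ≠ 0 → ∀ x : ↥(divPart A),
    ∃ y, n • y = x := by
  intro n hn x
  have key : ∀ a ∈ divPart A, ∃ y ∈ divPart A, n • y = a := by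
    intro a ha
    unfold divPart at ha
    rw [sSup_eq_iSup'] at ha
    refine AddSubgroup.iSup_induction (C := fun a => ∃ y ∈ divPart A, n • y = a) _ ha ?_ ?_ ?_
    · intro H a haH
      obtain ⟨y, hy, hya⟩ := H.2 n hn a haH
      exact ⟨y, (le_sSup H.2 : (H : AddSubgroup A) ≤ _) hy, hya⟩
    · exact ⟨0, zero_mem _, smul_zero _⟩
    · rintro a b ⟨y, hy, rfl⟩ ⟨z, hz, rfl⟩
      exact ⟨y + z, add_mem hy hz, smul_add _ _ _⟩
  obtain ⟨y, hy, hya⟩ := key x x.2
  exact ⟨⟨y, hy⟩, Subtype.ext hya⟩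

/-- an infinite vector space over a finite field contains `K^(ℕ)` -/
theorem vs_seq {K : Type} [Field K] [Finite K] {V : Type} [AddCommGroup V] [Module K V]
    [Infinite V] : ∃ g : (ℕ →₀ K) →+ V, Injective g := by
  let b := Module.Basis.ofVectorSpace K V
  have hι : Infinite (Module.Basis.ofVectorSpaceIndex K V) := by
    by_contra hfin
    rw [not_infinite_iff_finite] at hfin
    have := Fintype.ofFinite (Module.Basis.ofVectorSpaceIndex K V)
    have : Finite V := Finite.of_equiv _ b.equivFun.symm.toEquiv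
    exact not_finite V
  let e : ℕ ↪ Module.Basis.ofVectorSpaceIndex K V := Infinite.natEmbedding _
  have hli : LinearIndependent K (b ∘ e) := b.linearIndependent.comp _ e.injective
  exact ⟨(Finsupp.linearCombination K (b ∘ e)).toAddMonoidHom, hli⟩

/-- an infinite elementary group contains `(ZMod p)^(ℕ)` -/
theorem soc_seq {p : ℕ} (hp : p.Prime) {A : Type} [AddCommGroup A] (S : AddSubgroup A)
    (hS : ∀ x ∈ S, p • x = 0) (hinf : (S : Set A).Infinite) :
    ∃ g : (ℕ →₀ ZMod p) →+ ↥S, Injective g := by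
  have := Fact.mk hp
  have hinf' : Infinite ↥S := hinf.to_subtype
  let _ : Module (ZMod p) ↥S := AddCommGroup.zmodModule (fun x => Subtype.ext (hS x x.2))
  exact vs_seq

/-- a nonzero `p`-torsion element has a multiple of order `p` -/
theorem exists_mult {p : ℕ} {B : Type} [AddCommGroup B] (b : B) (hb : b ≠ 0)
    (k : ℕ) (hk : p ^ k • b = 0) : ∃ q : ℕ, p ^ q • b ≠ 0 ∧ p • p ^ q • b = 0 := by
  classical
  have hex : ∃ k, p ^ k • b = 0 := ⟨k, hk⟩
  have h0 : Nat.find hex ≠ 0 := by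
    intro h
    have := Nat.find_spec hex
    rw [h] at this
    exact hb (by simpa using this)
  obtain ⟨q, hq⟩ := Nat.exists_eq_succ_of_ne_zero h0
  refine ⟨q, Nat.find_min hex (by omega), ?_⟩
  have := Nat.find_spec hex
  rw [hq, Nat.succ_eq_add_one, pow_succ', mul_smul] at this
  exact this

end PE316

open PE316

theorem pieceE : PieceE := by
  intro p hp A _ hA hinf
  obtain ⟨c, hpc, hc0, hcs⟩ := C_soc hp
  -- the socle of the divisible part
  let S : AddSubgroup ↥(divPart A) :=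
    { carrier := {a | p • a = 0}
      zero_mem' := smul_zero _
      add_mem' := fun {a b} ha hb => by
        show p • (a + b) = 0
        rw [smul_add, show p • a = 0 from ha, show p • b = 0 from hb, add_zero]
      neg_mem' := fun {a} ha => by
        show p • (-a) = 0
        rw [smul_neg, show p • a = 0 from ha, neg_zero] }
  have hSinf : (S : Set ↥(divPart A)).Infinite := by
    intro hfin
    apply hinf
    refine (hfin.image Subtype.val).subset ?_
    rintro a ⟨ha, hpa⟩
    exact ⟨⟨a, ha⟩, Subtype.ext hpa, rfl⟩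
  obtain ⟨g0, hg0⟩ := soc_seq hp S (fun x hx => hx) hSinf
  let g : (ℕ →₀ ZMod p) →+ ↥(divPart A) := S.subtype.comp g0
  have hg : Function.Injective g := Subtype.val_injective.comp hg0
  let eps : (ℕ →₀ ZMod p) →+ (ℕ →₀ C) := Finsupp.mapRange.addMonoidHom (zl p c hpc)
  have heps : Function.Injective eps := by
    show Function.Injective (Finsupp.mapRange (zl p c hpc) (map_zero _))
    exact Finsupp.mapRange_injective _ _ (zl_inj hp c hpc hc0)
  obtain ⟨Φ', hΦ'⟩ := ext_div (divPart_div A) eps heps g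
  let Φ : (ℕ →₀ C) →+ A := (divPart A).subtype.comp Φ'
  have hΦ : ∀ x, Φ (eps x) = (g x : A) := fun x => by
    show ((Φ' (eps x) : ↥(divPart A)) : A) = _
    rw [hΦ']
  -- socle elements of X are in the range of eps
  have hsoc : ∀ x : ℕ →₀ C, p • x = 0 → ∃ y, eps y = x := by
    intro x hx
    have h1 : ∀ k, ∃ z : ZMod p, zl p c hpc z = x k ∧ (x k = 0 → z = 0) := by
      intro k
      by_cases h : x k = 0
      · exact ⟨0, by rw [map_zero, h], fun _ => rfl⟩
      · have : p • x k = 0 := by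
          have := DFunLike.congr_fun hx k
          simpa using this
        obtain ⟨m, hm⟩ := hcs _ this
        exact ⟨(m : ZMod p), by rw [zl_int, hm], fun h' => absurd h' h⟩
    choose z hz hz0 using h1
    refine ⟨Finsupp.onFinset x.support z (fun k hk => ?_), ?_⟩
    · rw [Finsupp.mem_support_iff]
      intro h
      exact hk (hz0 k h)
    · ext k
      show zl p c hpc (z k) = x k
      exact hz k
  have hΦinj : ∀ x : ℕ →₀ C, (∃ k : ℕ, p ^ k • x = 0) → Φ x = 0 → x = 0 := by
    rintro x ⟨k, hk⟩ hx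
    by_contra h0
    obtain ⟨q, hq0, hq1⟩ := exists_mult x h0 k hk
    obtain ⟨y, hy⟩ := hsoc _ hq1
    have h1 : (g y : A) = 0 := by
      rw [← hΦ, hy, map_nsmul, hx, smul_zero]
    have h2 : g y = 0 := Subtype.ext h1
    have h3 : y = 0 := hg (by rw [h2, map_zero])
    apply hq0
    rw [← hy, h3, map_zero]
  -- torsion part of X
  let Xp : AddSubgroup (ℕ →₀ C) :=
    { carrier := {x | ∃ k : ℕ, p ^ k • x = 0}
      zero_mem' := ⟨0, smul_zero _⟩
      add_mem' := by
        rintro a b ⟨k, hk⟩ ⟨l, hl⟩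
        refine ⟨k + l, ?_⟩
        rw [smul_add, pow_add]
        rw [mul_comm (p ^ k) (p ^ l), mul_smul, hk, smul_zero, mul_comm, mul_smul, hl, smul_zero,
          add_zero]
      neg_mem' := by
        rintro a ⟨k, hk⟩
        exact ⟨k, by rw [smul_neg, hk, neg_zero]⟩ }
  have hιinj : Function.Injective (Φ.comp Xp.subtype) := by
    rw [injective_iff_map_eq_zero]
    rintro ⟨x, hx⟩ h
    exact Subtype.ext (hΦinj x hx h)
  obtain ⟨h, hh⟩ := ext_div X_div (Φ.comp Xp.subtype) hιinj Xp.subtype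
  have hh' : ∀ x : ℕ →₀ C, (∃ k : ℕ, p ^ k • x = 0) → h (Φ x) = x := fun x hx => hh ⟨x, hx⟩
  let κ : C →+ A := Φ.comp (Finsupp.singleAddHom 0)
  have hκ : κ c ≠ 0 := by
    intro h0
    have h1 := hΦinj (Finsupp.single 0 c) ⟨1, by rw [pow_one, Finsupp.smul_single, hpc,
      Finsupp.single_zero]⟩ h0
    rw [Finsupp.single_eq_zero] at h1
    exact hc0 h1
  -- slenderness
  intro f
  by_contra hNinf
  have hN : {n : ℕ | f (Pi.single n 1) ≠ 0}.Infinite := hNinf
  have hq : ∀ n : ℕ, ∃ q : ℕ, f (Pi.single n 1) ≠ 0 →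
      (p ^ q • f (Pi.single n 1) ≠ 0 ∧ p • p ^ q • f (Pi.single n 1) = 0) := by
    intro n
    by_cases h0 : f (Pi.single n 1) = 0
    · exact ⟨0, fun h => absurd h0 h⟩
    · obtain ⟨k, hk⟩ := hA (f (Pi.single n 1))
      obtain ⟨q, hq⟩ := exists_mult _ h0 k hk
      exact ⟨q, fun _ => hq⟩
  choose q hq using hq
  have hψ : ∀ n : ℕ, ∃ ψ : A →+ C, f (Pi.single n 1) ≠ 0 → ψ (p ^ q n • f (Pi.single n 1)) = c := by
    intro n
    by_cases h0 : f (Pi.single n 1) = 0
    · exact ⟨0, fun h => absurd h0 h⟩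
    · obtain ⟨h1, h2⟩ := hq n h0
      obtain ⟨ψ, hψ⟩ := ext_div C_div (zl p _ h2) (zl_inj hp _ h2 h1) (zl p c hpc)
      refine ⟨ψ, fun _ => ?_⟩
      have h3 := hψ 1
      rw [zl_one, zl_one] at h3
      exact h3
  choose ψ hψ using hψ
  let r : ℕ → AddMonoid.End A := fun n => (Φ.comp (Finsupp.singleAddHom n)).comp (ψ n)
  let π : ℕ → AddMonoid.End A := fun n => (κ.comp (Finsupp.applyAddHom n)).comp h
  have hr : ∀ n x, r n x = Φ (Finsupp.single n (ψ n x)) := fun _ _ => rfl
  have hπ : ∀ n x, π n x = κ (h x n) := fun _ _ => rfl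
  have htor : ∀ n x, ∃ k : ℕ, p ^ k • Finsupp.single n (ψ n x) = 0 := by
    intro n x
    obtain ⟨k, hk⟩ := hA x
    refine ⟨k, ?_⟩
    rw [Finsupp.smul_single, ← map_nsmul, hk, map_zero, Finsupp.single_zero]
  have hπr : ∀ n j x, j ≠ n → π n (r j x) = 0 := by
    intro n j x hjn
    rw [hπ, hr, hh' _ (htor j x), Finsupp.single_apply, if_neg hjn, map_zero]
  have hπr' : ∀ n x, π n (r n x) = κ (ψ n x) := by
    intro n x
    rw [hπ, hr, hh' _ (htor n x), Finsupp.single_apply, if_pos rfl]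
  let u : ℕ → AddMonoid.End A := fun n => p ^ q n • r n
  have hu : ∀ n x, u n x = r n (p ^ q n • x) := by
    intro n x
    rw [map_nsmul]
    rfl
  obtain ⟨n, hn, hns⟩ := hN.exists_notMem_finset (h (f u)).support
  have h1 : π n (f u) = 0 := by
    rw [hπ, Finsupp.notMem_support_iff.1 hns, map_zero]
  have h2 : (π n) • u = (π n * u n) • (Pi.single n (1 : AddMonoid.End A) : ℕ → AddMonoid.End A) := by
    funext j
    by_cases hj : j = n
    · subst hj
      simp
    · rw [Pi.smul_apply, Pi.smul_apply, Pi.single_eq_of_ne hj]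
      have h0 : (π n * u n) • (0 : AddMonoid.End A) = 0 := mul_zero _
      rw [h0]
      ext x
      show π n (u j x) = 0
      rw [hu, hπr n j _ hj]
  have h3 : π n (f u) = π n (u n (f (Pi.single n 1))) := by
    have : (π n) • f u = (π n * u n) • f (Pi.single n 1) := by
      rw [← map_smul, ← map_smul, h2]
    exact this
  rw [h1, hu, hπr', hψ n hn] at h3
  exact hκ h3.symm

end Pool.Agent.R260.SL
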