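import Pool.Agent.R260.SL.Defs

namespace Pool.Agent.R260.SL

/-- The properties of the `m`-th projection. -/
structure GoodProj (p m : ℕ) {A : Type} [AddCommGroup A] (ρ : A →+ A) : Prop where
  idem : ∀ x, ρ (ρ x) = ρ x
  kill : ∀ x, p ^ m • (x - ρ x) = 0
  div : ∀ a, p • a = 0 → ρ a = a → ∃ b, p ^ m • b = a

theorem pieceF_aux_div (p m : ℕ) (hp : p.Prime) (z : ZMod (p ^ (m + 1))) (hz : p • z = 0) :
    ((z.val / p ^ m * p ^ m : ℕ) : ZMod (p ^ (m + 1))) = z := by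
  have : NeZero (p ^ (m + 1)) := ⟨pow_ne_zero _ hp.ne_zero⟩
  have h1 : ((p * z.val : ℕ) : ZMod (p ^ (m + 1))) = 0 := by
    rw [Nat.cast_mul, ZMod.natCast_zmod_val, ← nsmul_eq_mul]
    exact hz
  rw [ZMod.natCast_eq_zero_iff] at h1
  have h2 : p ^ m ∣ z.val := by
    obtain ⟨k, hk⟩ := h1
    refine ⟨k, Nat.eq_of_mul_eq_mul_left hp.pos ?_⟩
    rw [hk]
    ring
  rw [Nat.div_mul_cancel h2, ZMod.natCast_zmod_val]

theorem pieceF_compl (p : ℕ) [Fact p.Prime] (V : Type) [AddCommGroup V] [Module (ZMod p) V]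
    (W : AddSubgroup V) : ∃ (ι : Type) (F : (ι →₀ ZMod p) →ₗ[ZMod p] V),
      Function.Injective F ∧ (∀ c, F c ∈ W → F c = 0) ∧ ∀ v, ∃ c, ∃ w ∈ W, v = F c + w := by
  obtain ⟨T, hT⟩ := Submodule.exists_isCompl (AddSubgroup.toZModSubmodule p W)
  let bas := Module.Basis.ofVectorSpace (ZMod p) T
  refine ⟨_, T.subtype.comp bas.repr.symm.toLinearMap, ?_, ?_, ?_⟩
  · rw [LinearMap.coe_comp]
    exact T.injective_subtype.comp bas.repr.symm.injective
  · intro c hc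
    have h2 : T.subtype.comp bas.repr.symm.toLinearMap c ∈ T := by
      simp
    have h1 : T.subtype.comp bas.repr.symm.toLinearMap c ∈ AddSubgroup.toZModSubmodule p W := hc
    exact Submodule.disjoint_def.1 hT.disjoint _ h1 h2
  · intro v
    have h1 : v ∈ AddSubgroup.toZModSubmodule p W ⊔ T := by
      rw [hT.sup_eq_top]; trivial
    obtain ⟨w, hw, t, ht, rfl⟩ := Submodule.mem_sup.1 h1
    refine ⟨bas.repr ⟨t, ht⟩, w, hw, ?_⟩
    simp [add_comm]

theorem pieceF_step0 (hB : PieceB) (p : ℕ) (hp : p.Prime) (A : Type) [AddCommGroup A] (m : ℕ)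
    (ρ : A →+ A) (hρ : GoodProj p m ρ) (V : Type) [AddCommGroup V] [Module (ZMod p) V]
    (j : V →+ A) (hj : Function.Injective j) (hj1 : ∀ v, p • j v = 0) (hj2 : ∀ v, ρ (j v) = j v)
    (hj3 : ∀ a, p • a = 0 → ρ a = a → ∃ v, j v = a) :
    ∃ ρ' : A →+ A, GoodProj p (m + 1) ρ' ∧ ∀ x, ρ (ρ' x) = ρ' x := by
  classical
  have : Fact p.Prime := ⟨hp⟩
  have : NeZero (p ^ (m + 1)) := ⟨pow_ne_zero _ hp.ne_zero⟩
  obtain ⟨ι, F, hFi, hFW, hFc⟩ := pieceF_compl p V
    { carrier := {a : V | ∃ b : A, p ^ (m + 1) • b = j a}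
      zero_mem' := ⟨0, by simp⟩
      add_mem' := by
        rintro a b ⟨c, hc⟩ ⟨d, hd⟩
        exact ⟨c + d, by rw [smul_add, hc, hd, map_add]⟩
      neg_mem' := by
        rintro a ⟨c, hc⟩
        exact ⟨-c, by rw [smul_neg, hc, map_neg]⟩ }
  have ht : ∀ i, ∃ y, p ^ m • y = j (F (Finsupp.single i 1)) ∧ ρ y = y := by
    intro i
    obtain ⟨y, hy⟩ := hρ.div (j (F (Finsupp.single i 1))) (hj1 _) (hj2 _)
    refine ⟨ρ y, ?_, hρ.idem y⟩
    rw [← map_nsmul, hy, hj2]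
  choose y hy hy' using ht
  have hny : ∀ i, p ^ (m + 1) • y i = 0 := by
    intro i
    rw [pow_succ', mul_smul, hy, hj1]
  have hφex : ∀ i, ∃ f : ZMod (p ^ (m + 1)) →+ A, ∀ k : ℕ, f (k : ZMod (p ^ (m + 1))) = k • y i := by
    intro i
    refine ⟨ZMod.lift (p ^ (m + 1)) ⟨zmultiplesHom A (y i), by
      rw [zmultiplesHom_apply, natCast_zsmul]; exact hny i⟩, ?_⟩
    intro k
    have := ZMod.lift_coe (p ^ (m + 1)) (⟨zmultiplesHom A (y i), by
      rw [zmultiplesHom_apply, natCast_zsmul]; exact hny i⟩ :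
        {f : ℤ →+ A // f ((p ^ (m + 1) : ℕ) : ℤ) = 0}) (k : ℤ)
    rw [Int.cast_natCast] at this
    rw [this, zmultiplesHom_apply, natCast_zsmul]
  choose φ hφ using hφex
  obtain ⟨Φ, hΦ1⟩ : ∃ Φ : (ι →₀ ZMod (p ^ (m + 1))) →+ A,
      ∀ i z, Φ (Finsupp.single i z) = φ i z :=
    ⟨Finsupp.liftAddHom φ, fun i z => Finsupp.liftAddHom_apply_single _ _ _⟩
  have hρΦ : ∀ z, ρ (Φ z) = Φ z := by
    intro z
    induction z using Finsupp.induction_linear with
    | zero => simp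
    | add a b ha hb => rw [map_add, map_add, ha, hb]
    | single i c =>
      rw [hΦ1]
      have : φ i c = c.val • y i := by
        conv_lhs => rw [← ZMod.natCast_zmod_val c]
        exact hφ i _
      rw [this, map_nsmul, hy']
  have hFsingle : ∀ i (c : ℕ), j (F (Finsupp.single i (c : ZMod p))) = c • p ^ m • y i := by
    intro i c
    rw [hy, ← map_nsmul, ← map_nsmul, Finsupp.smul_single, nsmul_one]
  -- the combination map
  have hcomb : ∀ c : ι →₀ ZMod p, ∃ z : ι →₀ ZMod (p ^ (m + 1)), Φ z = j (F c) := by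
    intro c
    induction c using Finsupp.induction_linear with
    | zero => exact ⟨0, by simp⟩
    | add a b ha hb =>
      obtain ⟨z, hz⟩ := ha
      obtain ⟨w, hw⟩ := hb
      exact ⟨z + w, by rw [map_add, hz, hw, map_add, map_add]⟩
    | single i c =>
      refine ⟨Finsupp.single i ((c.val * p ^ m : ℕ) : ZMod (p ^ (m + 1))), ?_⟩
      rw [hΦ1, hφ, mul_smul]
      conv_rhs => rw [← ZMod.natCast_zmod_val c]
      rw [hFsingle]
  have hkey : ∀ x : ι →₀ ZMod (p ^ (m + 1)), p • x = 0 → ∃ c : ι →₀ ZMod p,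
      Φ x = j (F c) ∧ (c = 0 → x = 0) := by
    intro x hx
    have hg0 : (((0 : ZMod (p ^ (m + 1))).val / p ^ m : ℕ) : ZMod p) = 0 := by simp
    have hxi : ∀ i, p • x i = 0 := fun i => by
      have := DFunLike.congr_fun hx i
      simpa using this
    refine ⟨x.mapRange (fun z => ((z.val / p ^ m : ℕ) : ZMod p)) hg0, ?_, ?_⟩
    · have h1 : x = ∑ i ∈ x.support, Finsupp.single i (x i) := x.sum_single.symm
      have h2 : x.mapRange (fun z => ((z.val / p ^ m : ℕ) : ZMod p)) hg0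
          = ∑ i ∈ x.support, Finsupp.single i (((x i).val / p ^ m : ℕ) : ZMod p) := by
        ext i
        rw [Finsupp.mapRange_apply, Finsupp.finset_sum_apply]
        simp only [Finsupp.single_apply]
        rw [Finset.sum_ite_eq']
        split_ifs with h
        · rfl
        · rw [Finsupp.notMem_support_iff.1 h]
          exact hg0
      rw [h2, map_sum, map_sum]
      conv_lhs => rw [h1]
      rw [map_sum]
      refine Finset.sum_congr rfl fun i _ => ?_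
      rw [hΦ1, hFsingle, ← mul_smul, ← hφ, pieceF_aux_div p m hp (x i) (hxi i)]
    · intro h0
      ext i
      have h1 : (((x i).val / p ^ m : ℕ) : ZMod p) = 0 := by
        have := DFunLike.congr_fun h0 i
        simpa using this
      have h2 : p ∣ (x i).val / p ^ m := (ZMod.natCast_eq_zero_iff _ _).1 h1
      have h3 := pieceF_aux_div p m hp (x i) (hxi i)
      rw [← h3]
      obtain ⟨k, hk⟩ := h2
      rw [hk, Finsupp.coe_zero, Pi.zero_apply, ZMod.natCast_eq_zero_iff]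
      exact ⟨k, by ring⟩
  obtain ⟨N, hN⟩ : ∃ N : AddSubgroup A, ∀ a, a ∈ N ↔ ∃ b, p ^ (m + 1) • b = a :=
    ⟨(nsmulAddMonoidHom (p ^ (m + 1)) : A →+ A).range, fun a => Iff.rfl⟩
  have hY : ∀ y : A ⧸ N, p ^ (m + 1) • y = 0 := by
    intro y
    obtain ⟨a, rfl⟩ := QuotientAddGroup.mk'_surjective N y
    rw [← map_nsmul, QuotientAddGroup.mk'_apply, QuotientAddGroup.eq_zero_iff, hN]
    exact ⟨a, rfl⟩
  have hmk : ∀ a, QuotientAddGroup.mk' N a = 0 ↔ ∃ b, p ^ (m + 1) • b = a := by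
    intro a
    rw [QuotientAddGroup.mk'_apply, QuotientAddGroup.eq_zero_iff, hN]
  have hinj0 : ∀ x, p • x = 0 → QuotientAddGroup.mk' N (Φ x) = 0 → x = 0 := by
    intro x hx h0
    obtain ⟨c, hc, hc'⟩ := hkey x hx
    obtain ⟨b, hb⟩ := (hmk _).1 h0
    have h1 := hFW c ⟨b, by rw [hb, hc]⟩
    exact hc' (hFi (by rw [h1, map_zero]))
  have hinj1 : ∀ (e : ℕ) (x), p ^ e • x = 0 → QuotientAddGroup.mk' N (Φ x) = 0 → x = 0 := by
    intro e
    induction e with
    | zero => intro x hx _; simpa using hx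
    | succ e ih =>
      intro x hx h0
      have h1 : p ^ e • x = 0 := hinj0 _ (by rw [← mul_smul, ← pow_succ', hx])
        (by rw [map_nsmul, map_nsmul, h0, smul_zero])
      exact ih x h1 h0
  have hinj : Function.Injective ((QuotientAddGroup.mk' N).comp Φ) := by
    rw [injective_iff_map_eq_zero]
    intro x hx
    refine hinj1 (m + 1) x ?_ hx
    ext i
    rw [Finsupp.smul_apply, Finsupp.coe_zero, Pi.zero_apply, nsmul_eq_mul,
      ZMod.natCast_self, zero_mul]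
  obtain ⟨h, hh⟩ := hB p hp (m + 1) ι (ι →₀ ZMod (p ^ (m + 1))) (A ⧸ N) hY
    ((QuotientAddGroup.mk' N).comp Φ) hinj (AddMonoidHom.id _)
  obtain ⟨τ, hτ⟩ : ∃ τ : A →+ A, ∀ x, τ x = Φ (h (QuotientAddGroup.mk' N (ρ x))) :=
    ⟨Φ.comp (h.comp ((QuotientAddGroup.mk' N).comp ρ)), fun x => rfl⟩
  have hτΦ : ∀ z, τ (Φ z) = Φ z := by
    intro z
    rw [hτ, hρΦ]
    have := hh z
    rw [AddMonoidHom.comp_apply, AddMonoidHom.id_apply] at this
    rw [this]
  have hρτ : ∀ x, ρ (τ x) = τ x := fun x => by rw [hτ, hρΦ]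
  have hτρ : ∀ x, τ (ρ x) = τ x := fun x => by rw [hτ, hτ, hρ.idem]
  have hττ : ∀ x, τ (τ x) = τ x := fun x => by
    conv_rhs => rw [hτ, ← hτΦ]
    rw [hτ x]
  have hτn : ∀ x, τ (p ^ (m + 1) • x) = 0 := by
    intro x
    rw [hτ, (hmk _).2 ⟨ρ x, by rw [map_nsmul]⟩, map_zero, map_zero]
  have hτt : ∀ c, τ (j (F c)) = j (F c) := by
    intro c
    obtain ⟨z, hz⟩ := hcomb c
    rw [← hz, hτΦ]
  have hρρ' : ∀ x, ρ (ρ x - τ x) = ρ x - τ x := by
    intro x
    rw [map_sub, hρ.idem, hρτ]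
  refine ⟨ρ - τ, ⟨?_, ?_, ?_⟩, hρρ'⟩
  · intro x
    change ρ (ρ x - τ x) - τ (ρ x - τ x) = ρ x - τ x
    rw [hρρ', map_sub, hτρ, hττ, sub_self, sub_zero]
  · intro x
    change p ^ (m + 1) • (x - (ρ x - τ x)) = 0
    have h1 : x - (ρ x - τ x) = (x - ρ x) + τ x := by abel
    rw [h1, smul_add, ← map_nsmul, hτn, add_zero, pow_succ', mul_smul, hρ.kill, smul_zero]
  · intro a ha ha'
    change ρ a - τ a = a at ha'
    have h1 : ρ a = a := by
      have := hρρ' a
      rw [ha'] at this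
      exact this
    have h2 : τ a = 0 := by
      rw [h1] at ha'
      exact sub_eq_self.1 ha'
    obtain ⟨v, rfl⟩ := hj3 a ha h1
    obtain ⟨c, w, ⟨b, hb⟩, rfl⟩ := hFc v
    rw [map_add, map_add, hτt, ← hb, hτn, add_zero] at h2
    exact ⟨b, by rw [hb, map_add, h2, zero_add]⟩

theorem pieceF_step (hB : PieceB) (p : ℕ) (hp : p.Prime) (A : Type) [AddCommGroup A] (m : ℕ)
    (ρ : A →+ A) (hρ : GoodProj p m ρ) :
    ∃ ρ' : A →+ A, GoodProj p (m + 1) ρ' ∧ ∀ x, ρ (ρ' x) = ρ' x := by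
  let S : AddSubgroup A :=
    { carrier := {a | p • a = 0 ∧ ρ a = a}
      zero_mem' := by simp
      add_mem' := by
        rintro a b ⟨ha, ha'⟩ ⟨hb, hb'⟩
        exact ⟨by rw [smul_add, ha, hb, add_zero], by rw [map_add, ha', hb']⟩
      neg_mem' := by
        rintro a ⟨ha, ha'⟩
        exact ⟨by rw [smul_neg, ha, neg_zero], by rw [map_neg, ha']⟩ }
  have hS : ∀ x : S, p • x = 0 := fun x => Subtype.ext x.2.1
  letI : Module (ZMod p) S := AddCommGroup.zmodModule hS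
  exact pieceF_step0 hB p hp A m ρ hρ S S.subtype S.subtype_injective (fun v => v.2.1)
    (fun v => v.2.2) (fun a ha ha' => ⟨⟨a, ha, ha'⟩, rfl⟩)

theorem pieceF (hB : PieceB) : PieceF := by
  intro p hp A _ _
  have hstep : ∀ (m : ℕ) (ρ : {ρ : A →+ A // GoodProj p m ρ}),
      ∃ ρ' : {ρ : A →+ A // GoodProj p (m + 1) ρ}, ∀ x, ρ.1 (ρ'.1 x) = ρ'.1 x := by
    intro m ρ
    obtain ⟨ρ', h1, h2⟩ := pieceF_step hB p hp A m ρ.1 ρ.2
    exact ⟨⟨ρ', h1⟩, h2⟩
  choose next hnext using hstep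
  let base : {ρ : A →+ A // GoodProj p 0 ρ} := ⟨AddMonoidHom.id A,
    ⟨fun x => rfl, fun x => by simp, fun a _ _ => ⟨a, by simp⟩⟩⟩
  let seq : ∀ m : ℕ, {ρ : A →+ A // GoodProj p m ρ} := fun m => Nat.rec base next m
  have hseq : ∀ m x, (seq m).1 ((seq (m + 1)).1 x) = (seq (m + 1)).1 x := fun m x =>
    hnext m (seq m) x
  refine ⟨fun m => (seq m).1, ?_, ?_, ?_⟩
  · intro m m' hmm
    induction m', hmm using Nat.le_induction with
    | base => exact (seq m).2.idem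
    | succ k hk ih =>
      intro x
      change (seq m).1 ((seq (k + 1)).1 x) = (seq (k + 1)).1 x
      rw [← hseq k x]
      exact ih _
  · intro m x
    have h1 := (seq m).2.kill x
    rw [smul_sub, sub_eq_zero] at h1
    change (seq m).1 (p ^ m • x) = p ^ m • x
    rw [map_nsmul, ← h1]
  · intro m a ha ha'
    exact (seq m).2.div a ha ha'

end Pool.Agent.R260.SL
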