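import Mathlib
import Pool.Agent.R260.SL.Defs

/-!
SL-G: bounded `p`-groups in which no `p^n A` is finite and nonzero are slender over their
endomorphism rings.
-/

namespace Pool.Agent.R260.SL

namespace GP

/-- every nonzero element of a `p`-group has a nonzero multiple in the socle -/
theorem exists_socle {A : Type*} [AddCommGroup A] (p : ℕ) (hA : IsPGrp p A) (x : A) (hx : x ≠ 0) :
    ∃ q : ℕ, p ^ q • x ≠ 0 ∧ p • (p ^ q • x) = 0 := by
  classical
  have hex : ∃ k : ℕ, p ^ k • x = 0 := hA x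
  have h1 := Nat.find_spec hex
  have h2 : Nat.find hex ≠ 0 := by
    intro h
    rw [h, pow_zero, one_smul] at h1
    exact hx h1
  obtain ⟨q, hq⟩ := Nat.exists_eq_succ_of_ne_zero h2
  refine ⟨q, Nat.find_min hex (by omega), ?_⟩
  rw [hq] at h1
  rw [← mul_smul, mul_comm, ← pow_succ]
  exact h1

/-- the core argument -/
theorem core {A C : Type} [AddCommGroup A] [AddCommGroup C] (p : ℕ) (hA : IsPGrp p A)
    (Φ : (ℕ →₀ C) →+ A) (h : A →+ (ℕ →₀ C)) (hΦ : ∀ x, h (Φ x) = x)
    (hψ : ∀ a : A, a ≠ 0 → p • a = 0 → ∃ ψ : A →+ C, ψ a ≠ 0) : SlenderOverEnd A := by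
  classical
  intro f
  by_contra hinf
  have hinf : {n : ℕ | f (Pi.single n (1 : AddMonoid.End A)) ≠ 0}.Infinite := hinf
  let nk := hinf.natEmbedding
  have hnk : ∀ k, f (Pi.single (nk k : ℕ) (1 : AddMonoid.End A)) ≠ 0 := fun k => (nk k).2
  have hinj : ∀ j k, (nk j : ℕ) = nk k → j = k := fun j k hjk =>
    nk.injective (Subtype.ext hjk)
  choose q hq hq0 using fun k => exists_socle p hA _ (hnk k)
  choose ψ hψ using fun k => hψ _ (hq k) (hq0 k)
  -- the endomorphisms
  let r : ℕ → AddMonoid.End A := fun k => (Φ.comp (Finsupp.singleAddHom k)).comp (ψ k)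
  let π : ℕ → AddMonoid.End A := fun k =>
    ((Φ.comp (Finsupp.singleAddHom 0)).comp (Finsupp.applyAddHom k)).comp h
  have hπr : ∀ k j x, π k (r j x) = Φ (Finsupp.single 0 ((Finsupp.single j (ψ j x)) k)) := by
    intro k j x
    change Φ (Finsupp.single 0 ((h (Φ (Finsupp.single j (ψ j x)))) k)) = _
    rw [hΦ]
  have hπr0 : ∀ k j, j ≠ k → π k * r j = 0 := by
    intro k j hjk
    ext x
    change π k (r j x) = 0
    rw [hπr, Finsupp.single_apply, if_neg hjk]
    simp
  let u : ℕ → AddMonoid.End A := fun m =>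
    if hm : ∃ k, (nk k : ℕ) = m then r hm.choose * ((p ^ (q hm.choose) : ℕ) : AddMonoid.End A) else 0
  have hu : ∀ k, u (nk k) = r k * ((p ^ (q k) : ℕ) : AddMonoid.End A) := by
    intro k
    have hm : ∃ k', (nk k' : ℕ) = nk k := ⟨k, rfl⟩
    simp only [u]
    rw [dif_pos hm]
    have : hm.choose = k := hinj _ _ hm.choose_spec
    rw [this]
  have hu0 : ∀ m, (¬ ∃ k, (nk k : ℕ) = m) → u m = 0 := by
    intro m hm
    simp only [u]
    rw [dif_neg hm]
  have hπu : ∀ k, π k • u = Pi.single (nk k : ℕ) (π k * r k * ((p ^ (q k) : ℕ) : AddMonoid.End A)) := by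
    intro k
    funext m
    rw [Pi.smul_apply, smul_eq_mul]
    by_cases hm : ∃ j, (nk j : ℕ) = m
    · obtain ⟨j, rfl⟩ := hm
      rw [hu j, ← mul_assoc]
      by_cases hjk : j = k
      · subst hjk
        rw [Pi.single_eq_same]
      · rw [hπr0 k j hjk, zero_mul, Pi.single_eq_of_ne]
        intro h'
        exact hjk (hinj _ _ h')
    · rw [hu0 m hm, mul_zero, Pi.single_eq_of_ne]
      intro h'
      exact hm ⟨k, h'.symm⟩
  have hval : ∀ k, π k (f u) ≠ 0 := by
    intro k
    have h1 : π k (f u) = f (π k • u) := by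
      rw [map_smul]; rfl
    have h2 : ∀ x : AddMonoid.End A, (Pi.single (nk k : ℕ) x : ℕ → AddMonoid.End A) =
        x • Pi.single (nk k : ℕ) (1 : AddMonoid.End A) := by
      intro x
      funext m
      rw [Pi.smul_apply, smul_eq_mul]
      by_cases hm : m = nk k
      · subst hm
        rw [Pi.single_eq_same, Pi.single_eq_same, mul_one]
      · rw [Pi.single_eq_of_ne hm, Pi.single_eq_of_ne hm, mul_zero]
    have h3 : (π k * r k * ((p ^ (q k) : ℕ) : AddMonoid.End A)) •
          f (Pi.single (nk k : ℕ) (1 : AddMonoid.End A)) =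
        π k (r k (p ^ (q k) • f (Pi.single (nk k : ℕ) (1 : AddMonoid.End A)))) := rfl
    rw [h1, hπu, h2, map_smul, h3, hπr, Finsupp.single_apply, if_pos rfl]
    intro h4
    have h5 := congrArg h h4
    rw [hΦ, map_zero] at h5
    exact hψ k (Finsupp.single_eq_zero.mp h5)
  obtain ⟨k, hk⟩ := Infinite.exists_notMem_finset (h (f u)).support
  apply hval k
  change Φ (Finsupp.single 0 ((h (f u)) k)) = 0
  rw [Finsupp.notMem_support_iff.mp hk]
  simp

/-- elements of `ZMod (p^(e+1))` killed by `p` -/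
theorem socle_zmod (p : ℕ) (hp : p.Prime) (e : ℕ) (c : ZMod (p ^ (e + 1))) (hc : p • c = 0) :
    c.val = p ^ e * (c.val / p ^ e) := by
  have : NeZero (p ^ (e + 1)) := ⟨pow_ne_zero _ hp.ne_zero⟩
  have h1 : ((p * c.val : ℕ) : ZMod (p ^ (e + 1))) = 0 := by
    rw [nsmul_eq_mul] at hc
    push_cast
    rw [ZMod.natCast_zmod_val]
    exact hc
  rw [ZMod.natCast_eq_zero_iff] at h1
  have h3 : p * p ^ e ∣ p * c.val := by
    have h4 : p * p ^ e = p ^ (e + 1) := by rw [pow_succ, mul_comm]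
    rw [h4]; exact h1
  have h2 : p ^ e ∣ c.val := Nat.dvd_of_mul_dvd_mul_left hp.pos h3
  exact (Nat.mul_div_cancel' h2).symm

/-- an infinite vector space contains an infinite independent sequence -/
theorem exists_indep (K V : Type) [Field K] [Finite K] [AddCommGroup V] [Module K V] [Infinite V] :
    ∃ t : ℕ → V, LinearIndependent K t := by
  classical
  let b := Module.Basis.ofVectorSpace K V
  have hι : Infinite (Module.Basis.ofVectorSpaceIndex K V) := by
    by_contra hfin
    rw [not_infinite_iff_finite] at hfin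
    have := Module.Finite.of_basis b
    have : Finite V := Module.finite_of_finite K
    exact not_finite V
  let em := Infinite.natEmbedding (Module.Basis.ofVectorSpaceIndex K V)
  exact ⟨_, b.linearIndependent.comp em em.injective⟩

theorem inj_aux {A : Type} [AddCommGroup A] (p : ℕ) (hp : p.Prime) (e : ℕ)
    [Module (ZMod (p ^ (e + 1))) A] (S : AddSubgroup A) [Module (ZMod p) S]
    (hS : ∀ x : S, ∃ y : A, p ^ e • y = (x : A)) (t : ℕ → S) (ht : LinearIndependent (ZMod p) t) :
    ∃ Φ : (ℕ →₀ ZMod (p ^ (e + 1))) →+ A, Function.Injective Φ := by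
  classical
  have : Fact p.Prime := ⟨hp⟩
  have : NeZero (p ^ (e + 1)) := ⟨pow_ne_zero _ hp.ne_zero⟩
  choose y hy using fun k => hS (t k)
  let Φ : (ℕ →₀ ZMod (p ^ (e + 1))) →ₗ[ZMod (p ^ (e + 1))] A :=
    Finsupp.linearCombination (ZMod (p ^ (e + 1))) y
  refine ⟨Φ.toAddMonoidHom, ?_⟩
  have base : ∀ x : ℕ →₀ ZMod (p ^ (e + 1)), p • x = 0 → Φ x = 0 → x = 0 := by
    intro x hpx hx
    have hc : ∀ k, p • x k = 0 := fun k => by
      have := DFunLike.congr_fun hpx k
      simpa using this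
    have h1 : ∑ k ∈ x.support, (((x k).val / p ^ e : ℕ) : ZMod p) • t k = 0 := by
      apply Subtype.ext
      rw [AddSubgroup.val_finsetSum]
      have h2 : Φ x = ∑ k ∈ x.support, ((x k) • y k) := by
        rw [Finsupp.linearCombination_apply, Finsupp.sum]
      rw [h2] at hx
      rw [AddSubgroup.coe_zero, ← hx]
      refine Finset.sum_congr rfl fun k _ => ?_
      have h3 : ((((x k).val / p ^ e : ℕ) : ZMod p) • t k : S) = ((x k).val / p ^ e) • t k := by
        rw [Nat.cast_smul_eq_nsmul]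
      rw [h3]
      have h4 : ((((x k).val / p ^ e) • t k : S) : A) = ((x k).val / p ^ e) • (t k : A) := by
        simp
      rw [h4, ← hy k, ← mul_smul]
      have h5 : (x k) • y k = (x k).val • y k := by
        conv_lhs => rw [← ZMod.natCast_zmod_val (x k)]
        rw [Nat.cast_smul_eq_nsmul]
      rw [h5]
      conv_rhs => rw [socle_zmod p hp e (x k) (hc k)]
      rw [mul_comm]
    have h2 := linearIndependent_iff'.mp ht x.support _ h1
    ext k
    by_cases hk : k ∈ x.support
    · have h3 := h2 k hk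
      rw [ZMod.natCast_eq_zero_iff] at h3
      have h4 := socle_zmod p hp e (x k) (hc k)
      obtain ⟨c, hc'⟩ := h3
      rw [hc', ← mul_assoc, ← pow_succ] at h4
      have h5 : x k = ((x k).val : ZMod (p ^ (e + 1))) := (ZMod.natCast_zmod_val _).symm
      rw [h5, h4, Finsupp.zero_apply, ZMod.natCast_eq_zero_iff]
      exact Dvd.intro _ rfl
    · rw [Finsupp.notMem_support_iff.mp hk, Finsupp.zero_apply]
  have all : ∀ j : ℕ, ∀ x : ℕ →₀ ZMod (p ^ (e + 1)), p ^ j • x = 0 → Φ x = 0 → x = 0 := by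
    intro j
    induction j with
    | zero => intro x h _; simpa using h
    | succ j ih =>
      intro x h1 h2
      apply ih x _ h2
      apply base
      · rw [← mul_smul, ← pow_succ']; exact h1
      · rw [map_nsmul, h2, nsmul_zero]
  rw [injective_iff_map_eq_zero]
  intro x hx
  refine all (e + 1) x ?_ hx
  ext k
  rw [Finsupp.smul_apply, Finsupp.zero_apply, nsmul_eq_mul]
  rw [CharP.cast_eq_zero, zero_mul]

/-- an injective homomorphism from a free module -/
theorem exists_inj {A : Type} [AddCommGroup A] (p : ℕ) (hp : p.Prime) (e : ℕ)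
    (hA : ∀ a : A, p ^ (e + 1) • a = 0) (hinf : (Set.range (fun a : A => p ^ e • a)).Infinite) :
    ∃ Φ : (ℕ →₀ ZMod (p ^ (e + 1))) →+ A, Function.Injective Φ := by
  classical
  have : Fact p.Prime := ⟨hp⟩
  have : NeZero (p ^ (e + 1)) := ⟨pow_ne_zero _ hp.ne_zero⟩
  let S : AddSubgroup A := (nsmulAddMonoidHom (α := A) (p ^ e)).range
  have hS : ∀ x : S, p • x = 0 := by
    rintro ⟨x, y, rfl⟩
    apply Subtype.ext
    change p • (p ^ e • y) = 0
    rw [← mul_smul, mul_comm, ← pow_succ]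
    exact hA y
  have hSinf : Infinite S := by
    have h1 : (S : Set A).Infinite := by
      have : (S : Set A) = Set.range (fun a : A => p ^ e • a) := by
        ext x; constructor
        · rintro ⟨y, rfl⟩; exact ⟨y, rfl⟩
        · rintro ⟨y, rfl⟩; exact ⟨y, rfl⟩
      rw [this]; exact hinf
    exact h1.to_subtype
  let i1 : Module (ZMod p) S := AddCommGroup.zmodModule hS
  let i2 : Module (ZMod (p ^ (e + 1))) A := AddCommGroup.zmodModule hA
  obtain ⟨t, ht⟩ := exists_indep (ZMod p) S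
  refine inj_aux p hp e S ?_ t ht
  rintro ⟨x, y, rfl⟩
  exact ⟨y, rfl⟩

/-- functionals that do not kill a given socle element -/
theorem exists_func (hB : PieceB) {A : Type} [AddCommGroup A] (p : ℕ) (hp : p.Prime) (e : ℕ)
    (hA : ∀ a : A, p ^ (e + 1) • a = 0) (a : A) (ha : a ≠ 0) (hpa : p • a = 0) :
    ∃ ψ : A →+ ZMod (p ^ (e + 1)), ψ a ≠ 0 := by
  classical
  have : Fact p.Prime := ⟨hp⟩
  have : NeZero (p ^ (e + 1)) := ⟨pow_ne_zero _ hp.ne_zero⟩
  have h1 : (zmultiplesHom A a) (p : ℤ) = 0 := by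
    rw [zmultiplesHom_apply, natCast_zsmul]; exact hpa
  let c : Unit →₀ ZMod (p ^ (e + 1)) := Finsupp.single () ((p ^ e : ℕ) : ZMod (p ^ (e + 1)))
  have hcne : ((p ^ e : ℕ) : ZMod (p ^ (e + 1))) ≠ 0 := by
    intro h
    rw [ZMod.natCast_eq_zero_iff, Nat.pow_dvd_pow_iff_le_right hp.one_lt] at h
    omega
  have h2 : (zmultiplesHom (Unit →₀ ZMod (p ^ (e + 1))) c) (p : ℤ) = 0 := by
    rw [zmultiplesHom_apply, natCast_zsmul]
    have h3 : p • c = Finsupp.single () (p • ((p ^ e : ℕ) : ZMod (p ^ (e + 1)))) := by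
      ext
      simp [c]
    rw [h3, nsmul_eq_mul, ← Nat.cast_mul, mul_comm, ← pow_succ, CharP.cast_eq_zero, Finsupp.single_zero]
  let i : ZMod p →+ A := ZMod.lift p ⟨zmultiplesHom A a, h1⟩
  let g : ZMod p →+ (Unit →₀ ZMod (p ^ (e + 1))) :=
    ZMod.lift p ⟨zmultiplesHom (Unit →₀ ZMod (p ^ (e + 1))) c, h2⟩
  have hi : Function.Injective i := by
    rw [ZMod.lift_injective]
    intro m hm
    rw [ZMod.intCast_zmod_eq_zero_iff_dvd]
    by_contra hnd
    have hcop : IsCoprime (m : ℤ) (p : ℤ) := by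
      rw [isCoprime_comm]
      exact (Nat.prime_iff_prime_int.mp hp).coprime_iff_not_dvd.mpr hnd
    obtain ⟨u, v, huv⟩ := hcop
    apply ha
    have hm' : m • a = 0 := hm
    calc a = (1 : ℤ) • a := (one_smul _ _).symm
      _ = (u * m + v * p) • a := by rw [huv]
      _ = u • (m • a) + v • ((p : ℤ) • a) := by rw [add_smul, mul_smul, mul_smul]
      _ = 0 := by rw [hm', natCast_zsmul, hpa]; simp
  obtain ⟨h, hh⟩ := hB p hp (e + 1) Unit (ZMod p) A hA i hi g
  refine ⟨(Finsupp.applyAddHom ()).comp h, ?_⟩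
  have h3 := hh 1
  have h4 : i 1 = a := by
    have := ZMod.lift_coe p ⟨zmultiplesHom A a, h1⟩ 1
    simpa using this
  have h5 : g 1 = c := by
    have := ZMod.lift_coe p ⟨zmultiplesHom (Unit →₀ ZMod (p ^ (e + 1))) c, h2⟩ 1
    simpa using this
  rw [h4, h5] at h3
  change (h a) () ≠ 0
  rw [h3, Finsupp.single_eq_same]
  exact hcne

end GP

open GP in
theorem pieceG (hB : PieceB) : PieceG := by
  classical
  intro p hp A _ M hM hfin
  have hex : ∃ M : ℕ, ∀ a : A, p ^ M • a = 0 := ⟨M, hM⟩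
  have h1 := Nat.find_spec hex
  rcases Nat.eq_zero_or_pos (Nat.find hex) with h0 | hpos
  · rw [h0] at h1
    intro f
    convert Set.finite_empty
    ext n
    have := h1 (f (Pi.single n 1))
    rw [pow_zero, one_smul] at this
    simp [this]
  · obtain ⟨e, he⟩ := Nat.exists_eq_succ_of_ne_zero hpos.ne'
    rw [he] at h1
    have h2 : ¬ ∀ a : A, p ^ e • a = 0 := Nat.find_min hex (by omega)
    have h3 := (hfin e).resolve_left h2
    obtain ⟨Φ, hΦ⟩ := exists_inj p hp e h1 h3
    obtain ⟨h, hh⟩ := hB p hp (e + 1) ℕ (ℕ →₀ ZMod (p ^ (e + 1))) A h1 Φ hΦ (AddMonoidHom.id _)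
    exact core p (fun a => ⟨e + 1, h1 a⟩) Φ h hh
      (fun a ha hpa => exists_func hB p hp e h1 a ha hpa)

end Pool.Agent.R260.SL
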